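import Pool.Agent.Lib.MP_d55432_al.G2.Iface2

/-!
# G2: EXA. The equivariant map for the wall `(1, 1, -2)`
-/

namespace Pool.Agent.Lib.MP_d55432_al.G2

open Matrix LieAlgebra

attribute [local instance 100] LieRing.ofAssociativeRing

theorem exa (K : Type*) [Field K] [CharZero K] (hD : DER_S K) (hE : EXW1_S K) : EXA_S K := by
  have hMC : MC (n := 2) (1 + 1) (fun p : PT K 2 => DD (p.1 0) (p.1 1)) :=
    MC.DD hD (VC.coord 0) (VC.coord 1)
  have hmem : ∀ p : PT K 2, DD (p.1 0) (p.1 1) ∈ g2 K := fun p => hD.1 _ _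
  have hδ : (fun p : PT K 2 => bb (p.1 0) (p.1 1) ^ 2 - 4 * qq (p.1 0) * qq (p.1 1)) ∈ PF K 2 := by
    have h1 := (SC.bb hD (VC.coord (K := K) (n := 2) 0) (VC.coord 1)).poly
    have h2 := (SC.qq hD (VC.coord (K := K) (n := 2) 0)).poly
    have h3 := (SC.qq hD (VC.coord (K := K) (n := 2) 1)).poly
    have h4 : (fun _ : PT K 2 => (4 : K)) ∈ PF K 2 := (PF K 2).algebraMap_mem 4
    exact (PF K 2).sub_mem ((PF K 2).pow_mem h1 2)
      ((PF K 2).mul_mem ((PF K 2).mul_mem h4 h2) h3)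
  have hone : bb (ee 1 : V7 K) (ee 4) ^ 2 - 4 * qq (ee 1 : V7 K) * qq (ee 4) ≠ 0 := by
    simp [bb, qq, ee]
  refine ⟨2, 1 + 1, fun a y => ⟨DD (a 0) (a 1), hmem (a, y)⟩, hMC.isCov (by norm_num) hmem,
    ?_, ?_, ?_⟩
  · intro g hg hY a y
    have := generic_vanish (n := 2) (M := fun p : PT K 2 => (⟨DD (p.1 0) (p.1 1), hmem p⟩ : g2 K))
      hMC.poly hδ ⟨(![ee 1, ee 4], 0), hone⟩ hg (fun p hp => hY _ (hE.1 _ _ hp)) (a, y)
    exact this
  · exact ⟨![ee 1, ee 4], 0, hE.1 _ _ hone⟩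
  · intro r hr hr5
    have hr' : r ∈ ({0, 1, 2} : Set ℕ) := by
      simp only [Set.mem_insert_iff, Set.mem_singleton_iff] at hr ⊢
      rcases hr with h | h | h | h
      · exact Or.inl h
      · exact Or.inr (Or.inl h)
      · exact Or.inr (Or.inr h)
      · refine absurd (?_ : (1 : K) * 1 * (1 + 1) * (1 - 1) * (2 * 1 + 1) * (1 + 2 * 1) = 0)
          (hr5 h)
        ring
    obtain ⟨x, y, h0, h7, hrk⟩ := hE.2.2 r hr'
    refine ⟨![x, y], 0, ?_, h7, hrk⟩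
    intro h
    exact h0 (congrArg Subtype.val h)

end Pool.Agent.Lib.MP_d55432_al.G2
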