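import Pool.Agent.Lib.MP_d55432_al.G2.Iface

/-!
# G2: FRAME. Transitivity of the automorphism group of the octonions on frames
-/

namespace Pool.Agent.Lib.MP_d55432_al.G2

open Matrix LieAlgebra MvPolynomial

attribute [local instance 100] LieRing.ofAssociativeRing

namespace FrameAux

section ring

variable {A : Type*} [CommRing A]

/-- Linearised double commutator. -/
theorem lin (x y z : V7 A) : br x (br y z) + br y (br x z) =
    (4 * bb x y) • z - (2 * bb x z) • y - (2 * bb y z) • x := by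
  funext i
  fin_cases i <;> simp [br, bb] <;> ring

theorem bb_br_skew (x y z : V7 A) : bb (br x y) z = -bb y (br x z) := by
  simp [br, bb]
  ring

theorem bb_add_left (x y z : V7 A) : bb (x + y) z = bb x z + bb y z := by
  simp [bb]
  ring

theorem bb_smul_left (c : A) (y z : V7 A) : bb (c • y) z = c * bb y z := by
  simp [bb]
  ring

theorem bb_neg_left (y z : V7 A) : bb (-y) z = -bb y z := by
  simp [bb]
  ring

theorem bb_add_right (x y z : V7 A) : bb x (y + z) = bb x y + bb x z := by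
  simp [bb]
  ring

theorem bb_smul_right (c : A) (y z : V7 A) : bb y (c • z) = c * bb y z := by
  simp [bb]
  ring

theorem bb_neg_right (y z : V7 A) : bb y (-z) = -bb y z := by
  simp [bb]
  ring

theorem br_neg_left (x y : V7 A) : br (-x) y = -br x y := by
  rw [← neg_one_smul A x, br_smul_left, neg_one_smul]

theorem br_neg_right (x y : V7 A) : br x (-y) = -br x y := by
  rw [← neg_one_smul A y, br_smul_right, neg_one_smul]

/-- Every vector is a combination of the standard basis. -/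
theorem bb_expand (x y : V7 A) : bb x y = ∑ k, bb x (Pi.single k 1) * y k := by
  simp [bb, Fin.sum_univ_succ]
  ring

end ring

variable {K : Type*} [Field K]

/-- The matrix with given columns. -/
def cols (w : Fin 7 → V7 K) : M7 K := Matrix.of fun i j => w j i

theorem cols_mulVec (w : Fin 7 → V7 K) (x : V7 K) : cols w *ᵥ x = ∑ j, x j • w j := by
  funext i
  simp [cols, Matrix.mulVec, dotProduct, Finset.sum_apply, mul_comm]

theorem cols_ee (w : Fin 7 → V7 K) (j : Fin 7) : cols w *ᵥ ee j = w j := by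
  rw [cols_mulVec]
  simp [ee, Pi.single_apply]

end FrameAux

open FrameAux in
theorem frame (K : Type*) [Field K] [CharZero K] : FRAME_S K := by
  intro e u₁ u₂ v₁ v₂ he hu₁ hu₂ hv₁ hv₂ b11 b12 b21 b22
  have h2 : (2 : K) ≠ 0 := two_ne_zero
  have h4 : (4 : K) ≠ 0 := by norm_num
  have hee : bb e e = 2 := by rw [bb_self, he, mul_one]
  -- orthogonality to e
  have be : ∀ (c : K) (x : V7 K), c ^ 2 = 4 → br e x = c • x → bb e x = 0 := by
    intro c x hc hx
    have h := br_br e x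
    rw [hx, br_smul_right, hx, smul_smul, ← sq, hc, he, mul_one] at h
    have h' : (2 * bb e x) • e = 0 := by
      have := h.symm
      rwa [sub_eq_self] at this
    have h'' : bb ((2 * bb e x) • e) e = 0 := by
      rw [h']; simp [bb]
    rw [bb_smul_left, hee] at h''
    have h3 : (4 : K) * bb e x = 0 := by linear_combination h''
    exact (mul_eq_zero.mp h3).resolve_left h4
  have bep : ∀ x : V7 K, br e x = (2 : K) • x → bb e x = 0 := fun x hx => be 2 x (by norm_num) hx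
  have bem : ∀ x : V7 K, br e x = -((2 : K) • x) → bb e x = 0 :=
    fun x hx => be (-2) x (by norm_num) (by rw [hx, neg_smul])
  have bpp : ∀ x x' : V7 K, br e x = (2 : K) • x → br e x' = (2 : K) • x' → bb x x' = 0 := by
    intro x x' hx hx'
    have h := bb_br_skew e x x'
    rw [hx, hx', bb_smul_left, bb_smul_right] at h
    have h3 : (4 : K) * bb x x' = 0 := by linear_combination h
    exact (mul_eq_zero.mp h3).resolve_left h4
  have bmm : ∀ x x' : V7 K, br e x = -((2 : K) • x) → br e x' = -((2 : K) • x') →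
      bb x x' = 0 := by
    intro x x' hx hx'
    have h := bb_br_skew e x x'
    rw [hx, hx', bb_neg_left, bb_neg_right, bb_smul_left, bb_smul_right] at h
    have h3 : (4 : K) * bb x x' = 0 := by linear_combination -h
    exact (mul_eq_zero.mp h3).resolve_left h4
  have cpp : ∀ x x' : V7 K, br e x = (2 : K) • x → br e x' = (2 : K) • x' →
      br e (br x x') = -((2 : K) • br x x') := by
    intro x x' hx hx'
    have h := lin e x x'
    rw [hx', br_smul_right, bep x hx, bep x' hx', bpp x x' hx hx'] at h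
    simp only [mul_zero, zero_smul, sub_zero] at h
    exact eq_neg_of_add_eq_zero_left h
  have cmm : ∀ x x' : V7 K, br e x = -((2 : K) • x) → br e x' = -((2 : K) • x') →
      br e (br x x') = (2 : K) • br x x' := by
    intro x x' hx hx'
    have h := lin e x x'
    rw [hx', br_neg_right, br_smul_right, bem x hx, bem x' hx', bmm x x' hx hx'] at h
    simp only [mul_zero, zero_smul, sub_zero] at h
    rwa [add_neg_eq_zero] at h
  have cpm : ∀ x y : V7 K, br e x = (2 : K) • x → br e y = -((2 : K) • y) →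
      br x y = bb x y • e := by
    intro x y hx hy
    have h := lin e x y
    have h' := lin e y x
    rw [hy, br_neg_right, br_smul_right, bep x hx, bem y hy] at h
    rw [hx, br_smul_right, bep x hx, bem y hy, bb_comm y x, br_swap x y, br_neg_right] at h'
    simp only [mul_zero, zero_smul, sub_zero, zero_sub] at h h'
    have h3 : (4 : K) • br x y = (4 : K) • (bb x y • e) := by
      have h5 : (4 : K) • br x y = -(br e (br x y) + -((2 : K) • br x y)) +
        -(-br e (br x y) + (2 : K) • -br x y) := by module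
      rw [h5, h, h']
      module
    exact smul_right_injective _ h4 h3
  -- the remaining vectors
  obtain ⟨v₃, hv₃def⟩ : ∃ v₃ : V7 K, br u₁ u₂ = (2 : K) • v₃ :=
    ⟨(2 : K)⁻¹ • br u₁ u₂, by rw [smul_smul, mul_inv_cancel₀ h2, one_smul]⟩
  obtain ⟨u₃, hu₃def⟩ : ∃ u₃ : V7 K, br v₁ v₂ = -((2 : K) • u₃) :=
    ⟨-((2 : K)⁻¹ • br v₁ v₂), by rw [smul_neg, smul_smul, mul_inv_cancel₀ h2, one_smul, neg_neg]⟩
  have hv₃ : br e v₃ = -((2 : K) • v₃) := by
    have h := cpp u₁ u₂ hu₁ hu₂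
    rw [hv₃def, br_smul_right] at h
    have h3 : (2 : K) • br e v₃ = (2 : K) • (-((2 : K) • v₃)) := by rw [h, smul_neg]
    exact smul_right_injective _ h2 h3
  have hu₃ : br e u₃ = (2 : K) • u₃ := by
    have h := cmm v₁ v₂ hv₁ hv₂
    rw [hu₃def, br_neg_right, br_smul_right, smul_neg, neg_inj] at h
    exact smul_right_injective _ h2 h
  -- brackets
  have ev1 : br v₁ e = (2 : K) • v₁ := by rw [br_swap, hv₁, neg_neg]
  have eu1 : br u₁ e = -((2 : K) • u₁) := by rw [br_swap, hu₁]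
  have c11 : br u₁ v₁ = e := by rw [cpm u₁ v₁ hu₁ hv₁, b11, one_smul]
  have c12 : br u₁ v₂ = 0 := by rw [cpm u₁ v₂ hu₁ hv₂, b12, zero_smul]
  have c21 : br u₂ v₁ = 0 := by rw [cpm u₂ v₁ hu₂ hv₁, b21, zero_smul]
  have c22 : br u₂ v₂ = e := by rw [cpm u₂ v₂ hu₂ hv₂, b22, one_smul]
  have u23 : br u₂ u₃ = (2 : K) • v₁ := by
    have h := lin u₂ v₁ v₂
    rw [c22, ev1, hu₃def, b21, b22, bmm v₁ v₂ hv₁ hv₂, br_neg_right, br_smul_right] at h
    simp only [mul_zero, zero_smul, sub_zero, zero_sub, mul_one] at h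
    have h3 : (2 : K) • br u₂ u₃ = (2 : K) • ((2 : K) • v₁) := by
      have h5 : (2 : K) • br u₂ u₃ = -(-((2 : K) • br u₂ u₃) + (2 : K) • v₁) +
        (2 : K) • v₁ := by module
      rw [h5, h]
      module
    exact smul_right_injective _ h2 h3
  have u31 : br u₃ u₁ = (2 : K) • v₂ := by
    have h := lin u₁ v₁ v₂
    rw [c12, hu₃def, b11, b12, bmm v₁ v₂ hv₁ hv₂, br_neg_right, br_smul_right,
      br_swap u₃ u₁] at h
    have h0 : br v₁ (0 : V7 K) = 0 := by simpa using br_smul_right (0 : K) v₁ v₁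
    rw [h0] at h
    simp only [mul_zero, zero_smul, sub_zero, zero_sub, mul_one, add_zero, smul_neg,
      neg_neg] at h
    have h3 : (2 : K) • br u₃ u₁ = (2 : K) • ((2 : K) • v₂) := by
      rw [h]
      module
    exact smul_right_injective _ h2 h3
  have v23 : br v₂ v₃ = -((2 : K) • u₁) := by
    have h := lin v₂ u₁ u₂
    rw [br_swap u₂ v₂, c22, hv₃def, bb_comm v₂ u₁, b12, bb_comm v₂ u₂, b22,
      bpp u₁ u₂ hu₁ hu₂, br_smul_right, br_neg_right, eu1] at h
    simp only [mul_zero, zero_smul, sub_zero, zero_sub, mul_one, neg_neg] at h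
    have h3 : (2 : K) • br v₂ v₃ = (2 : K) • (-((2 : K) • u₁)) := by
      have h5 : (2 : K) • br v₂ v₃ = ((2 : K) • br v₂ v₃ + (2 : K) • u₁) - (2 : K) • u₁ := by
        module
      rw [h5, h]
      module
    exact smul_right_injective _ h2 h3
  have v31 : br v₃ v₁ = -((2 : K) • u₂) := by
    have h := lin v₁ u₁ u₂
    rw [br_swap u₂ v₁, c21, hv₃def, bb_comm v₁ u₁, b11, bb_comm v₁ u₂, b21,
      bpp u₁ u₂ hu₁ hu₂, br_smul_right, br_swap v₃ v₁] at h
    have h0 : br u₁ (-0 : V7 K) = 0 := by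
      rw [neg_zero]
      simpa using br_smul_right (0 : K) u₁ u₁
    rw [h0] at h
    simp only [mul_zero, zero_smul, sub_zero, zero_sub, mul_one, add_zero, smul_neg,
      neg_neg] at h
    have h3 : (2 : K) • br v₃ v₁ = (2 : K) • (-((2 : K) • u₂)) := by
      have h5 : (2 : K) • br v₃ v₁ = -(-((2 : K) • br v₃ v₁)) := by module
      rw [h5, h]
      module
    exact smul_right_injective _ h2 h3
  -- the form
  have b31 : bb u₃ v₁ = 0 := by
    have h := bb_br_skew v₂ v₁ v₁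
    have h' := bb_comm v₁ (br v₂ v₁)
    have h3 : (2 : K) * (2 * bb u₃ v₁) = 0 := by
      have h4 : bb (br v₂ v₁) v₁ = 2 * bb u₃ v₁ := by
        rw [br_swap v₁ v₂, hu₃def, neg_neg, bb_smul_left]
      rw [h4] at h
      rw [h', h4] at h
      linear_combination h
    simpa [h2] using h3
  have b32 : bb u₃ v₂ = 0 := by
    have h := bb_br_skew v₁ v₂ v₂
    have h' := bb_comm v₂ (br v₁ v₂)
    have h3 : (2 : K) * (2 * bb u₃ v₂) = 0 := by
      have h4 : bb (br v₁ v₂) v₂ = -(2 * bb u₃ v₂) := by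
        rw [hu₃def, bb_neg_left, bb_smul_left]
      rw [h4] at h
      rw [h', h4] at h
      linear_combination -h
    simpa [h2] using h3
  have b13 : bb u₁ v₃ = 0 := by
    have h := bb_br_skew u₂ u₁ u₁
    have h' := bb_comm u₁ (br u₂ u₁)
    have h3 : (2 : K) * (2 * bb u₁ v₃) = 0 := by
      have h4 : bb (br u₂ u₁) u₁ = -(2 * bb u₁ v₃) := by
        rw [br_swap u₁ u₂, hv₃def, bb_neg_left, bb_smul_left, bb_comm]
      rw [h4] at h
      rw [h', h4] at h
      linear_combination -h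
    simpa [h2] using h3
  have b23 : bb u₂ v₃ = 0 := by
    have h := bb_br_skew u₁ u₂ u₂
    have h' := bb_comm u₂ (br u₁ u₂)
    have h3 : (2 : K) * (2 * bb u₂ v₃) = 0 := by
      have h4 : bb (br u₁ u₂) u₂ = 2 * bb u₂ v₃ := by
        rw [hv₃def, bb_smul_left, bb_comm]
      rw [h4] at h
      rw [h', h4] at h
      linear_combination h
    simpa [h2] using h3
  have b33 : bb u₃ v₃ = 1 := by
    have h := bb_br_skew u₁ u₃ u₂
    rw [hv₃def, bb_smul_right, br_swap u₃ u₁, u31, bb_neg_left, bb_smul_left,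
      bb_comm v₂ u₂, b22] at h
    have h3 : (2 : K) * bb u₃ v₃ = 2 * 1 := by linear_combination h
    exact mul_left_cancel₀ h2 h3
  have c13 : br u₁ v₃ = 0 := by rw [cpm u₁ v₃ hu₁ hv₃, b13, zero_smul]
  have c23 : br u₂ v₃ = 0 := by rw [cpm u₂ v₃ hu₂ hv₃, b23, zero_smul]
  have c31 : br u₃ v₁ = 0 := by rw [cpm u₃ v₁ hu₃ hv₁, b31, zero_smul]
  have c32 : br u₃ v₂ = 0 := by rw [cpm u₃ v₂ hu₃ hv₂, b32, zero_smul]
  have c33 : br u₃ v₃ = e := by rw [cpm u₃ v₃ hu₃ hv₃, b33, one_smul]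
  -- the matrix
  set w : Fin 7 → V7 K := ![e, u₁, u₂, u₃, v₁, v₂, v₃] with hw
  set w' : Fin 7 → V7 K := ![(2 : K)⁻¹ • e, v₁, v₂, v₃, u₁, u₂, u₃] with hw'
  set g : M7 K := cols w with hg
  set h : M7 K := Matrix.of fun i k => bb (w' i) (Pi.single k 1) with hh
  have hgx : ∀ x : V7 K, g *ᵥ x = x 0 • e + x 1 • u₁ + x 2 • u₂ + x 3 • u₃ + x 4 • v₁ +
      x 5 • v₂ + x 6 • v₃ := by
    intro x
    rw [hg, cols_mulVec, hw]
    simp only [Fin.sum_univ_succ, Finset.univ_eq_empty, Finset.sum_empty]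
    simp only [Matrix.cons_val_zero, Matrix.cons_val_succ]
    change x 0 • e + (x 1 • u₁ + (x 2 • u₂ + (x 3 • u₃ + (x 4 • v₁ + (x 5 • v₂ +
      (x 6 • v₃ + 0)))))) = _
    module
  have hhg : h * g = 1 := by
    ext i j
    have e1 : (h * g) i j = bb (w' i) (w j) := by
      rw [Matrix.mul_apply, bb_expand]
      rfl
    rw [e1, hw, hw']
    fin_cases i <;> fin_cases j <;>
      simp [bb_smul_left, hee, b11, b12, b21, b22, b31, b32, b13, b23, b33, bep _ hu₁, bep _ hu₂,
        bep _ hu₃, bem _ hv₁, bem _ hv₂, bem _ hv₃, bpp _ _ hu₁ hu₁, bpp _ _ hu₁ hu₂,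
        bpp _ _ hu₁ hu₃, bpp _ _ hu₂ hu₁, bpp _ _ hu₂ hu₂, bpp _ _ hu₂ hu₃, bpp _ _ hu₃ hu₁,
        bpp _ _ hu₃ hu₂, bpp _ _ hu₃ hu₃, bmm _ _ hv₁ hv₁, bmm _ _ hv₁ hv₂, bmm _ _ hv₁ hv₃,
        bmm _ _ hv₂ hv₁, bmm _ _ hv₂ hv₂, bmm _ _ hv₂ hv₃, bmm _ _ hv₃ hv₁, bmm _ _ hv₃ hv₂,
        bmm _ _ hv₃ hv₃, bb_comm v₁ u₁, bb_comm v₁ u₂, bb_comm v₁ u₃, bb_comm v₂ u₁,
        bb_comm v₂ u₂, bb_comm v₂ u₃, bb_comm v₃ u₁, bb_comm v₃ u₂, bb_comm v₃ u₃,
        bb_comm u₁ e, bb_comm u₂ e, bb_comm u₃ e, bb_comm v₁ e, bb_comm v₂ e, bb_comm v₃ e]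
  refine ⟨g, h, ⟨mul_eq_one_comm.mp hhg, hhg, ?_⟩, ?_, ?_, ?_, ?_, ?_⟩
  · intro x y
    rw [hgx, hgx x, hgx y]
    simp only [br_add_left, br_add_right, br_smul_left, br_smul_right, br_self, c11, c12, c13,
      c21, c22, c23, c31, c32, c33, br_swap u₁ v₁, br_swap u₂ v₁, br_swap u₃ v₁, br_swap u₁ v₂,
      br_swap u₂ v₂, br_swap u₃ v₂, br_swap u₁ v₃, br_swap u₂ v₃, br_swap u₃ v₃, hu₁, hu₂, hu₃,
      hv₁, hv₂, hv₃, br_swap e u₁, br_swap e u₂, br_swap e u₃, br_swap e v₁, br_swap e v₂,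
      br_swap e v₃, hv₃def, u23, u31, hu₃def, v23, v31, br_swap u₁ u₂, br_swap u₂ u₃,
      br_swap u₃ u₁, br_swap v₁ v₂, br_swap v₂ v₃, br_swap v₃ v₁]
    simp only [br, Matrix.cons_val_zero, Matrix.cons_val_one, Matrix.cons_val]
    module
  · rw [hg, cols_ee]; rfl
  · rw [hg, cols_ee]; rfl
  · rw [hg, cols_ee]; rfl
  · rw [hg, cols_ee]; rfl
  · rw [hg, cols_ee]; rfl

end Pool.Agent.Lib.MP_d55432_al.G2
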